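import Pool.Agent.Helper71.TwoPt.Sym3

set_option autoImplicit false

open Set Topology Filter

namespace Pool.Agent.Results.MP_eec294_lc.FiniteSymmetry

/-- If a Borel subset `A` of the plane (identified with the complex numbers) meets every line
`a x + b y = c` in exactly two points, then only finitely many similarities of the plane (maps
multiplying all distances by a positive constant) map `A` onto itself. -/
theorem result (A : Set ℂ) (hAm : MeasurableSet A)
    (hA : ∀ a b c : ℝ, (a ≠ 0 ∨ b ≠ 0) → (A ∩ {z : ℂ | a * z.re + b * z.im = c}).ncard = 2) :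
    {f : ℂ → ℂ | (∃ r : ℝ, 0 < r ∧ ∀ z w, dist (f z) (f w) = r * dist z w) ∧
      f '' A = A}.Finite := by
  have hA' : Pool.Agent.Helper71.TwoPt.IsTwoPointC A := hA
  exact hA'.finite_similarities hAm

end Pool.Agent.Results.MP_eec294_lc.FiniteSymmetry
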