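import Pool.Agent.Helper71.TwoPt.Order

set_option autoImplicit false

open Set Topology Filter

namespace Pool.Agent.Results.MP_eec294_lc.GenericContact

/-- Let `A` be a set of the plane meeting every line in exactly two points, `S` a Borel subset of
`A`, `(u, v)` a direction, and `ω` any positive nondecreasing function on `(0, ∞)`. For comeagerly
many real `c`, every point `a` of `S` on the line `u y - v x = c` is approached from both sides by
points `z` of `S` with `|u z.2 - v z.1 - c| ≤ ω (displacement of z from a along (u, v))`. -/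
theorem result (A : Set (ℝ × ℝ))
    (hA : ∀ a b c : ℝ, (a ≠ 0 ∨ b ≠ 0) →
      (A ∩ {p : ℝ × ℝ | a * p.1 + b * p.2 = c}).ncard = 2)
    (S : Set (ℝ × ℝ)) (hSA : S ⊆ A) (hS : MeasurableSet S) (u v : ℝ) (huv : u ≠ 0 ∨ v ≠ 0)
    (ω : ℝ → ℝ) (hω0 : ∀ r, 0 < r → 0 < ω r) (hω : MonotoneOn ω (Ioi 0)) :
    ∀ᶠ c : ℝ in residual ℝ, ∀ a ∈ S, u * a.2 - v * a.1 = c → ∀ ε > 0,
      (∃ z ∈ S, 0 < (u * z.1 + v * z.2) - (u * a.1 + v * a.2) ∧
        (u * z.1 + v * z.2) - (u * a.1 + v * a.2) < ε ∧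
        |(u * z.2 - v * z.1) - c| ≤ ω ((u * z.1 + v * z.2) - (u * a.1 + v * a.2))) ∧
      (∃ z ∈ S, 0 < (u * a.1 + v * a.2) - (u * z.1 + v * z.2) ∧
        (u * a.1 + v * a.2) - (u * z.1 + v * z.2) < ε ∧
        |(u * z.2 - v * z.1) - c| ≤ ω ((u * a.1 + v * a.2) - (u * z.1 + v * z.2))) := by
  have hA' : Pool.Agent.Helper71.TwoPt.IsTwoPoint A := hA
  exact hA'.generic_contact hSA hS huv hω hω0

end Pool.Agent.Results.MP_eec294_lc.GenericContact
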