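import Pool.Agent.Helper71.TwoPt.Discont

set_option autoImplicit false

open Set Topology Filter

namespace Pool.Agent.Results.MP_eec294_lc.NowhereContinuous

/-- Let `A` be any set of the plane meeting every line in exactly two points. Then the map taking a
line `L` to the pair `A ∩ L` is discontinuous at every line `L₀ : a x + b y = c`: if
`A ∩ L₀ = {p, q}`, then for some `ε > 0` there are coefficients `(a', b', c')` arbitrarily close to
`(a, b, c)` for which the line `a' x + b' y = c'` does not contain points `p', q'` of `A` with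
`dist p' p < ε` and `dist q' q < ε`. -/
theorem result (A : Set (ℝ × ℝ))
    (hA : ∀ a b c : ℝ, (a ≠ 0 ∨ b ≠ 0) →
      (A ∩ {p : ℝ × ℝ | a * p.1 + b * p.2 = c}).ncard = 2)
    (a b c : ℝ) (hab : a ≠ 0 ∨ b ≠ 0) (p q : ℝ × ℝ)
    (hpq : A ∩ {w : ℝ × ℝ | a * w.1 + b * w.2 = c} = {p, q}) :
    ∃ ε > 0, ∀ δ > 0, ∃ a' b' c' : ℝ, |a' - a| < δ ∧ |b' - b| < δ ∧ |c' - c| < δ ∧
      ¬ ∃ p' ∈ A, ∃ q' ∈ A, a' * p'.1 + b' * p'.2 = c' ∧ a' * q'.1 + b' * q'.2 = c' ∧
        dist p' p < ε ∧ dist q' q < ε := by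
  have hA' : Pool.Agent.Helper71.TwoPt.IsTwoPoint A := hA
  have hne : p ≠ q := by
    rintro rfl
    have h := hA a b c hab
    rw [hpq] at h
    simp at h
  have hpL : a * p.1 + b * p.2 = c := by
    have : p ∈ A ∩ {w : ℝ × ℝ | a * w.1 + b * w.2 = c} := by rw [hpq]; simp
    exact this.2
  by_contra hcon
  push Not at hcon
  refine hA'.discontinuous hab hne hpL fun ε hε => ?_
  obtain ⟨δ, hδ, h⟩ := hcon ε hε
  rw [Metric.eventually_nhds_iff]
  refine ⟨δ, hδ, ?_⟩
  rintro ⟨a', b', c'⟩ hd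
  simp only [Prod.dist_eq, max_lt_iff, Real.dist_eq] at hd
  exact h a' b' c' hd.1 hd.2.1 hd.2.2

end Pool.Agent.Results.MP_eec294_lc.NowhereContinuous
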