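import Pool.Agent.Helper71.TwoPt.Nowhere

set_option autoImplicit false

open Set Topology

namespace Pool.Agent.Results.MP_eec294_lc.SigmaCompactPart

/-- Let `A` be any set of the plane meeting every line `a x + b y = c` in exactly two points, and
let `S` be a sigma-compact subset of `A`. Then the set of all pairs `(m, c)` for which the line
`y = m x + c` meets `S` is meager in the plane of all `(m, c)`. -/
theorem result (A : Set (ℝ × ℝ))
    (hA : ∀ a b c : ℝ, (a ≠ 0 ∨ b ≠ 0) →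
      (A ∩ {p : ℝ × ℝ | a * p.1 + b * p.2 = c}).ncard = 2)
    (S : Set (ℝ × ℝ)) (hS : IsSigmaCompact S) (hSA : S ⊆ A) :
    IsMeagre {L : ℝ × ℝ | ∃ p ∈ S, p.2 = L.1 * p.1 + L.2} := by
  have hA' : Pool.Agent.Helper71.TwoPt.IsTwoPoint A := hA
  obtain ⟨K, hK, hKS⟩ := hS
  have h1 : IsMeagre (⋃ n, Pool.Agent.Helper71.TwoPt.Hit (K n)) :=
    isMeagre_iUnion fun n => (hA'.isNowhereDense_hit (hK n)
      ((subset_iUnion K n).trans (hKS.subset.trans hSA))).isMeagre
  refine h1.mono ?_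
  rintro L ⟨p, hp, hL⟩
  rw [← hKS] at hp
  obtain ⟨n, hn⟩ := mem_iUnion.1 hp
  exact mem_iUnion.2 ⟨n, p, hn, hL⟩

end Pool.Agent.Results.MP_eec294_lc.SigmaCompactPart
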